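import Pool.Agent.Helper98.Lang.Defs

/-! # Packet P18: large denominators -/

set_option autoImplicit false

open Finset Filter Topology

namespace Pool.Agent.Helper88.Lang

open Pool.Agent.Helper98.Lang

/-- the set of one dyadic block -/
def DS (ξ ε c : ℝ) (N Q : ℕ) : Set ℕ := {a : ℕ | N < 2 * a ∧ a ≤ N ∧ ∃ q : ℕ, Q ≤ q ∧ q < 2 * Q ∧
      nd ((a : ℝ) * q * ξ) ≤ c / (q * Real.log q ^ (1 + ε))}

/-- facts for large `N` -/
theorem ev_facts (κ C' C'' e' ε' : ℝ) (hκ : 0 < κ) (he : e' < -ε') (N0 : ℕ) :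
    ∀ᶠ N : ℕ in atTop, 16 ≤ N ∧ (N0 : ℝ) ≤ Real.sqrt N ∧ (N : ℝ) ^ (κ / 2) * 2 ≤ (N : ℝ) ^ κ ∧
      1 ≤ Real.log N ∧
      Real.sqrt N + C'' * N * Real.log N ^ e' + C' * Real.sqrt N ≤ N / Real.log N ^ ε' := by
  have hlog : Tendsto (fun N : ℕ => Real.log N) atTop atTop :=
    Real.tendsto_log_atTop.comp tendsto_natCast_atTop_atTop
  have h2 : ∀ᶠ N : ℕ in atTop, (N0 : ℝ) ≤ Real.sqrt N :=
    (Real.tendsto_sqrt_atTop.comp tendsto_natCast_atTop_atTop).eventually_ge_atTop _
  have h3 : ∀ᶠ N : ℕ in atTop, (2 : ℝ) ≤ (N : ℝ) ^ (κ / 2) :=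
    ((tendsto_rpow_atTop (by positivity)).comp tendsto_natCast_atTop_atTop).eventually_ge_atTop _
  have h4 : Tendsto (fun x : ℝ => C'' * x ^ (e' + ε')) atTop (𝓝 (C'' * 0)) := by
    have h : Tendsto (fun x : ℝ => x ^ (-(-(e' + ε')))) atTop (𝓝 0) :=
      tendsto_rpow_neg_atTop (by linarith)
    simp only [neg_neg] at h
    exact h.const_mul C''
  have h5 : Tendsto (fun x : ℝ => (1 + C') * (Real.log x ^ ε' / x ^ ((1 : ℝ) / 2))) atTop
      (𝓝 ((1 + C') * 0)) :=
    ((isLittleO_log_rpow_rpow_atTop ε' (by norm_num)).tendsto_div_nhds_zero).const_mul _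
  rw [mul_zero] at h4 h5
  have h6 := (h4.comp hlog).eventually (gt_mem_nhds (show (0 : ℝ) < 1 / 2 by norm_num))
  have h7 := (h5.comp tendsto_natCast_atTop_atTop).eventually
    (gt_mem_nhds (show (0 : ℝ) < 1 / 2 by norm_num))
  filter_upwards [eventually_ge_atTop 16, h2, h3, hlog.eventually_ge_atTop 1, h6, h7] with
    N a1 a2 a3 a4 a5 a6
  have hN0 : (0 : ℝ) < N := by exact_mod_cast (by omega : 0 < N)
  have hL0 : 0 < Real.log N := by linarith
  refine ⟨a1, a2, ?_, a4, ?_⟩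
  · have e : (N : ℝ) ^ κ = (N : ℝ) ^ (κ / 2) * (N : ℝ) ^ (κ / 2) := by
      rw [← Real.rpow_add hN0]
      congr 1
      ring
    rw [e]
    exact mul_le_mul_of_nonneg_left a3 (Real.rpow_nonneg hN0.le _)
  · have hP : 0 < Real.log N ^ ε' := Real.rpow_pos_of_pos hL0 _
    rw [le_div_iff₀ hP]
    simp only [Function.comp] at a5 a6
    have hs : (N : ℝ) ^ ((1 : ℝ) / 2) = Real.sqrt N := (Real.sqrt_eq_rpow _).symm
    rw [hs] at a6
    have hsp : 0 < Real.sqrt N := Real.sqrt_pos.2 hN0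
    have hss : Real.sqrt N * Real.sqrt N = N := Real.mul_self_sqrt hN0.le
    have e1 : Real.log N ^ e' * Real.log N ^ ε' = Real.log N ^ (e' + ε') :=
      (Real.rpow_add hL0 _ _).symm
    have e2 : (1 + C') * Real.log N ^ ε' ≤ 1 / 2 * Real.sqrt N := by
      have : (1 + C') * (Real.log N ^ ε' / Real.sqrt N) * Real.sqrt N ≤ 1 / 2 * Real.sqrt N :=
        mul_le_mul_of_nonneg_right a6.le hsp.le
      have e3 : (1 + C') * (Real.log N ^ ε' / Real.sqrt N) * Real.sqrt N =
        (1 + C') * Real.log N ^ ε' := by field_simp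
      linarith
    have e4 : Real.sqrt N * ((1 + C') * Real.log N ^ ε') ≤ Real.sqrt N * (1 / 2 * Real.sqrt N) :=
      mul_le_mul_of_nonneg_left e2 hsp.le
    have e5 : N * (C'' * Real.log N ^ (e' + ε')) ≤ N * (1 / 2) :=
      mul_le_mul_of_nonneg_left a5.le hN0.le
    calc (Real.sqrt N + C'' * N * Real.log N ^ e' + C' * Real.sqrt N) * Real.log N ^ ε'
        = Real.sqrt N * ((1 + C') * Real.log N ^ ε') +
          N * (C'' * (Real.log N ^ e' * Real.log N ^ ε')) := by ring
      _ ≤ Real.sqrt N * (1 / 2 * Real.sqrt N) + N * (1 / 2) := by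
          rw [e1]
          exact add_le_add e4 e5
      _ = N := by
          rw [show Real.sqrt N * (1 / 2 * Real.sqrt N) = 1 / 2 * (Real.sqrt N * Real.sqrt N) by
            ring, hss]
          ring

theorem large : GDyad → GLarge := by
  intro hD ξ hξ ε ε' κ A c hε hε' hκ hc
  by_cases hAκ : A < κ
  · refine ⟨2, fun N hN => ?_⟩
    have hN1 : (1 : ℝ) < N := by exact_mod_cast (by omega : 1 < N)
    have hempty : {a : ℕ | 1 ≤ a ∧ a ≤ N ∧ ∃ q : ℕ, (N : ℝ) ^ κ ≤ q ∧ (q : ℝ) ≤ (N : ℝ) ^ A ∧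
      nd ((a : ℝ) * q * ξ) ≤ c / (q * Real.log q ^ (1 + ε))} = ∅ := by
      ext a
      simp only [Set.mem_setOf_eq, Set.mem_empty_iff_false, iff_false]
      rintro ⟨_, _, q, h1, h2, _⟩
      have := Real.rpow_lt_rpow_of_exponent_lt hN1 hAκ
      linarith
    rw [hempty, Set.ncard_empty]
    have : 0 ≤ Real.log N := Real.log_nonneg hN1.le
    push_cast
    positivity
  push Not at hAκ
  have hA0 : 0 < A := by linarith
  set η := min ((ε - ε') / 2) (ε / 2) with hη
  have hη0 : 0 < η := lt_min (by linarith) (by linarith)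
  have hη1 : η ≤ (ε - ε') / 2 := min_le_left _ _
  have hη2 : η ≤ ε / 2 := min_le_right _ _
  obtain ⟨C, N1, hC, hDy⟩ := hD ξ hξ ε η (κ / 2) (2 * A + 2) c hε hη0 (by linarith)
    (by linarith) hc
  set e := η - 1 - ε with he
  have he0 : e < 0 := by linarith
  set C' := (2 * A + 1) with hC'
  set C'' := C * 2 ^ (-e) * (4 * A + 2) with hC''
  obtain ⟨N2, hN2⟩ := eventually_atTop.1
    (ev_facts κ 0 C'' (e + 1) ε' hκ (by linarith) (N1 + 2))
  refine ⟨N2, fun N hN => ?_⟩
  obtain ⟨a1, a2, a3, a4, a5⟩ := hN2 N hN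
  have hN0 : (0 : ℝ) < N := by exact_mod_cast (by omega : 0 < N)
  have hN1 : (1 : ℝ) < N := by exact_mod_cast (by omega : 1 < N)
  have hsq : Real.sqrt N ^ 2 = N := Real.sq_sqrt hN0.le
  set J := Nat.log 2 N with hJ
  set I := ⌊A * Real.log N / Real.log 2⌋₊ with hI
  -- the blocks
  set good : ℕ → ℕ → Prop := fun j i => Real.sqrt N < ((N / 2 ^ j : ℕ) : ℝ) ∧
    (((N / 2 ^ j : ℕ) : ℝ)) ^ (κ / 2) ≤ ((2 ^ i : ℕ) : ℝ) ∧
    ((2 ^ i : ℕ) : ℝ) ≤ (((N / 2 ^ j : ℕ) : ℝ)) ^ (2 * A + 2) with hgood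
  classical
  set Df : ℕ → ℕ → Finset ℕ := fun j i => (Icc 1 N).filter
    (fun a => good j i ∧ a ∈ DS ξ ε c (N / 2 ^ j) (2 ^ i)) with hDf
  have hcov : {a : ℕ | 1 ≤ a ∧ a ≤ N ∧ ∃ q : ℕ, (N : ℝ) ^ κ ≤ q ∧ (q : ℝ) ≤ (N : ℝ) ^ A ∧
      nd ((a : ℝ) * q * ξ) ≤ c / (q * Real.log q ^ (1 + ε))} ⊆
      ((Icc 1 (Nat.sqrt N) ∪ (range (J + 1)).biUnion (fun j => (range (I + 1)).biUnion
        (fun i => Df j i)) : Finset ℕ) : Set ℕ) := by
    rintro a ⟨ha1, haN, q, hq1, hq2, hq3⟩
    rw [mem_coe, mem_union]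
    by_cases has : a ≤ Nat.sqrt N
    · exact Or.inl (mem_Icc.2 ⟨ha1, has⟩)
    · right
      push Not at has
      have haR : Real.sqrt N < a := by
        rw [Real.sqrt_lt' (by exact_mod_cast ha1)]
        have h1 : N < a ^ 2 := by
          have := Nat.sqrt_lt'.1 has
          exact this
        exact_mod_cast h1
      set j := Nat.log 2 (N / a) with hj
      have hNa : N / a ≠ 0 := by
        have := Nat.div_pos haN ha1
        omega
      have hj1 : 2 ^ j ≤ N / a := Nat.pow_log_le_self 2 hNa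
      have hj2 : N / a < 2 ^ (j + 1) := Nat.lt_pow_succ_log_self (by norm_num) _
      have haM : a ≤ N / 2 ^ j := by
        rw [Nat.le_div_iff_mul_le (by positivity)]
        have := (Nat.le_div_iff_mul_le ha1).1 hj1
        rw [mul_comm]
        exact this
      have hMa : N / 2 ^ j < 2 * a := by
        rw [Nat.div_lt_iff_lt_mul (by positivity)]
        have := (Nat.div_lt_iff_lt_mul ha1).1 hj2
        rw [pow_succ] at this
        calc N < 2 ^ j * 2 * a := this
          _ = 2 * a * 2 ^ j := by ring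
      set i := Nat.log 2 q with hi
      have hqpos : (0 : ℝ) < q := lt_of_lt_of_le (Real.rpow_pos_of_pos hN0 _) hq1
      have hq0 : q ≠ 0 := by
        have : 0 < q := by exact_mod_cast hqpos
        omega
      have hi1 : 2 ^ i ≤ q := Nat.pow_log_le_self 2 hq0
      have hi2 : q < 2 ^ (i + 1) := Nat.lt_pow_succ_log_self (by norm_num) _
      have hMR : (a : ℝ) ≤ ((N / 2 ^ j : ℕ) : ℝ) := by exact_mod_cast haM
      have hMN : ((N / 2 ^ j : ℕ) : ℝ) ≤ N := by exact_mod_cast Nat.div_le_self _ _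
      have hM0 : (0 : ℝ) < ((N / 2 ^ j : ℕ) : ℝ) := by
        have : (0 : ℝ) < a := by exact_mod_cast ha1
        linarith
      have hM1 : (1 : ℝ) ≤ ((N / 2 ^ j : ℕ) : ℝ) := by
        have : (1 : ℝ) ≤ a := by exact_mod_cast ha1
        linarith
      rw [mem_biUnion]
      refine ⟨j, ?_, ?_⟩
      · rw [mem_range]
        have : j ≤ J := Nat.log_mono_right (Nat.div_le_self _ _)
        omega
      rw [mem_biUnion]
      refine ⟨i, ?_, ?_⟩
      · rw [mem_range]
        have : i ≤ I := by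
          apply Nat.le_floor
          rw [le_div_iff₀ (Real.log_pos (by norm_num))]
          have h1 : ((2 ^ i : ℕ) : ℝ) ≤ (N : ℝ) ^ A := le_trans (by exact_mod_cast hi1) hq2
          have h2 := Real.log_le_log (by positivity) h1
          rw [Real.log_rpow hN0] at h2
          push_cast at h2
          rw [Real.log_pow] at h2
          exact h2
        omega
      · rw [hDf]
        simp only
        rw [mem_filter]
        refine ⟨mem_Icc.2 ⟨ha1, haN⟩, ⟨by linarith, ?_, ?_⟩, hMa, haM, q, hi1, ?_, hq3⟩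
        · have h1 : (((N / 2 ^ j : ℕ) : ℝ)) ^ (κ / 2) ≤ (N : ℝ) ^ (κ / 2) :=
            Real.rpow_le_rpow hM0.le hMN (by linarith)
          have h2 : (q : ℝ) < 2 * ((2 ^ i : ℕ) : ℝ) := by
            have : q < 2 * 2 ^ i := by
              rw [pow_succ] at hi2
              omega
            exact_mod_cast this
          linarith
        · have h1 : ((2 ^ i : ℕ) : ℝ) ≤ (N : ℝ) ^ A := le_trans (by exact_mod_cast hi1) hq2
          have h2 : (N : ℝ) ≤ ((N / 2 ^ j : ℕ) : ℝ) ^ (2 : ℝ) := by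
            have h3 : Real.sqrt N ≤ ((N / 2 ^ j : ℕ) : ℝ) := by linarith
            rw [← hsq]
            have h4 := Real.sqrt_nonneg (N : ℝ)
            have h5 : ((N / 2 ^ j : ℕ) : ℝ) ^ (2 : ℝ) = ((N / 2 ^ j : ℕ) : ℝ) ^ (2 : ℕ) := by
              norm_cast
            rw [h5]
            exact pow_le_pow_left₀ h4 h3 2
          have h6 : (N : ℝ) ^ A ≤ (((N / 2 ^ j : ℕ) : ℝ) ^ (2 : ℝ)) ^ A :=
            Real.rpow_le_rpow hN0.le h2 hA0.le
          rw [← Real.rpow_mul hM0.le] at h6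
          have h7 : ((N / 2 ^ j : ℕ) : ℝ) ^ (2 * A) ≤ ((N / 2 ^ j : ℕ) : ℝ) ^ (2 * A + 2) :=
            Real.rpow_le_rpow_of_exponent_le hM1 (by linarith)
          linarith
        · rw [pow_succ] at hi2
          omega
  -- the size of one block
  have hone : ∀ j i : ℕ, ((Df j i).card : ℝ) ≤
      C * 2 ^ (-e) * Real.log N ^ e * (N * (1 / 2) ^ j) := by
    intro j i
    have hright : 0 ≤ C * 2 ^ (-e) * Real.log N ^ e * (N * (1 / 2) ^ j) := by
      have : 0 ≤ Real.log N ^ e := Real.rpow_nonneg (by linarith) _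
      positivity
    by_cases hg : good j i
    · obtain ⟨g1, g2, g3⟩ := hg
      have hMN : ((N / 2 ^ j : ℕ) : ℝ) ≤ N * (1 / 2) ^ j := by
        have := @Nat.cast_div_le ℝ _ _ _ N (2 ^ j)
        push_cast at this
        rw [one_div, inv_pow]
        exact this
      have hN1M : N1 ≤ N / 2 ^ j := by
        have h1 : (N1 : ℝ) ≤ ((N / 2 ^ j : ℕ) : ℝ) := by
          push_cast at a2
          linarith
        exact_mod_cast h1
      have h1 := hDy (N / 2 ^ j) (2 ^ i) hN1M g2 g3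
      have h2 : (Df j i).card ≤ (DS ξ ε c (N / 2 ^ j) (2 ^ i)).ncard := by
        rw [← Set.ncard_coe_finset]
        apply Set.ncard_le_ncard
        · intro a ha
          rw [mem_coe, hDf] at ha
          exact (mem_filter.1 ha).2.2
        · refine (Set.finite_Iic (N / 2 ^ j)).subset ?_
          intro a ha
          exact ha.2.1
      have h3 : ((Df j i).card : ℝ) ≤ ((DS ξ ε c (N / 2 ^ j) (2 ^ i)).ncard : ℝ) := by
        exact_mod_cast h2
      have hM0 : (0 : ℝ) < ((N / 2 ^ j : ℕ) : ℝ) := lt_of_le_of_lt (Real.sqrt_nonneg _) g1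
      have h4 : Real.log N / 2 ≤ Real.log ((N / 2 ^ j : ℕ) : ℝ) := by
        have h5 := Real.log_le_log (Real.sqrt_pos.2 hN0) g1.le
        rw [Real.log_sqrt hN0.le] at h5
        exact h5
      have h6 : Real.log ((N / 2 ^ j : ℕ) : ℝ) ^ e ≤ 2 ^ (-e) * Real.log N ^ e := by
        have h7 : Real.log ((N / 2 ^ j : ℕ) : ℝ) ^ e ≤ (Real.log N / 2) ^ e :=
          Real.rpow_le_rpow_of_nonpos (by linarith) h4 he0.le
        rw [Real.div_rpow (by linarith) (by norm_num)] at h7
        rw [Real.rpow_neg (by norm_num)]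
        rw [div_eq_inv_mul] at h7
        exact h7
      have h8 : 0 ≤ Real.log ((N / 2 ^ j : ℕ) : ℝ) ^ e := Real.rpow_nonneg (by linarith) _
      calc ((Df j i).card : ℝ) ≤ C * ((N / 2 ^ j : ℕ) : ℝ) * Real.log ((N / 2 ^ j : ℕ) : ℝ) ^ e :=
            h3.trans h1
        _ ≤ C * (N * (1 / 2) ^ j) * (2 ^ (-e) * Real.log N ^ e) := by
            apply mul_le_mul (mul_le_mul_of_nonneg_left hMN hC.le) h6 h8 (by positivity)
        _ = _ := by ring
    · have : Df j i = ∅ := by
        rw [hDf]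
        simp only
        rw [filter_eq_empty_iff]
        intro a _ h
        exact hg h.1
      rw [this, card_empty]
      simpa using hright
  -- summation
  have hfin := Set.ncard_le_ncard hcov (finite_toSet _)
  rw [Set.ncard_coe_finset] at hfin
  have hs1 : (((Icc 1 (Nat.sqrt N) ∪ (range (J + 1)).biUnion (fun j => (range (I + 1)).biUnion
        (fun i => Df j i)) : Finset ℕ).card : ℕ) : ℝ) ≤
      Real.sqrt N + C'' * N * Real.log N ^ (e + 1) := by
    have e1 := card_union_le (Icc 1 (Nat.sqrt N)) ((range (J + 1)).biUnion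
      (fun j => (range (I + 1)).biUnion (fun i => Df j i)))
    have e2 : (((range (J + 1)).biUnion (fun j => (range (I + 1)).biUnion
        (fun i => Df j i))).card : ℝ) ≤ ∑ j ∈ range (J + 1), ∑ i ∈ range (I + 1),
        ((Df j i).card : ℝ) := by
      have h1 : ((range (J + 1)).biUnion (fun j => (range (I + 1)).biUnion
        (fun i => Df j i))).card ≤ ∑ j ∈ range (J + 1), ∑ i ∈ range (I + 1), (Df j i).card :=
        card_biUnion_le.trans (sum_le_sum (fun j _ => card_biUnion_le))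
      exact_mod_cast h1
    have e3 : ∑ j ∈ range (J + 1), ∑ i ∈ range (I + 1), ((Df j i).card : ℝ) ≤
        ∑ j ∈ range (J + 1), (I + 1) * (C * 2 ^ (-e) * Real.log N ^ e * (N * (1 / 2) ^ j)) := by
      apply sum_le_sum
      intro j _
      have := sum_le_card_nsmul (range (I + 1)) (fun i => ((Df j i).card : ℝ)) _
        (fun i _ => hone j i)
      rw [card_range, nsmul_eq_mul] at this
      push_cast at this
      exact this
    have hLe : 0 ≤ Real.log N ^ e := Real.rpow_nonneg (by linarith) _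
    have e4 : ∑ j ∈ range (J + 1), ((I : ℝ) + 1) *
        (C * 2 ^ (-e) * Real.log N ^ e * (N * (1 / 2) ^ j)) ≤
        (I + 1) * (C * 2 ^ (-e) * Real.log N ^ e * (N * 2)) := by
      rw [← mul_sum, ← mul_sum, ← mul_sum]
      have hg := sum_geometric_two_le (J + 1)
      apply mul_le_mul_of_nonneg_left _ (by positivity)
      apply mul_le_mul_of_nonneg_left _ (by positivity)
      exact mul_le_mul_of_nonneg_left hg hN0.le
    have e5 : ((I : ℝ) + 1) ≤ (2 * A + 1) * Real.log N := by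
      have h1 : (I : ℝ) ≤ A * Real.log N / Real.log 2 := Nat.floor_le (by positivity)
      have h2 : A * Real.log N / Real.log 2 ≤ 2 * A * Real.log N := by
        rw [div_le_iff₀ (Real.log_pos (by norm_num))]
        have := Real.log_two_gt_d9
        have h3 : 0 < A * Real.log N := by positivity
        nlinarith
      linarith
    have e6 : ((I : ℝ) + 1) * (C * 2 ^ (-e) * Real.log N ^ e * (N * 2)) ≤
        C'' * N * Real.log N ^ (e + 1) := by
      rw [Real.rpow_add (by linarith), Real.rpow_one, hC'']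
      calc ((I : ℝ) + 1) * (C * 2 ^ (-e) * Real.log N ^ e * (N * 2)) ≤
            ((2 * A + 1) * Real.log N) * (C * 2 ^ (-e) * Real.log N ^ e * (N * 2)) :=
            mul_le_mul_of_nonneg_right e5 (by positivity)
        _ = _ := by ring
    have e7 : ((Icc 1 (Nat.sqrt N)).card : ℝ) ≤ Real.sqrt N := by
      rw [Nat.card_Icc]
      simp only [Nat.add_sub_cancel]
      exact Real.nat_sqrt_le_real_sqrt
    calc (((Icc 1 (Nat.sqrt N) ∪ (range (J + 1)).biUnion (fun j => (range (I + 1)).biUnion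
        (fun i => Df j i)) : Finset ℕ).card : ℕ) : ℝ) ≤ ((Icc 1 (Nat.sqrt N)).card : ℝ) +
          (((range (J + 1)).biUnion (fun j => (range (I + 1)).biUnion
            (fun i => Df j i))).card : ℝ) := by exact_mod_cast e1
      _ ≤ Real.sqrt N + C'' * N * Real.log N ^ (e + 1) := by linarith
  have hfin' : ({a : ℕ | 1 ≤ a ∧ a ≤ N ∧ ∃ q : ℕ, (N : ℝ) ^ κ ≤ q ∧ (q : ℝ) ≤ (N : ℝ) ^ A ∧
      nd ((a : ℝ) * q * ξ) ≤ c / (q * Real.log q ^ (1 + ε))}.ncard : ℝ) ≤
      (((Icc 1 (Nat.sqrt N) ∪ (range (J + 1)).biUnion (fun j => (range (I + 1)).biUnion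
        (fun i => Df j i)) : Finset ℕ).card : ℕ) : ℝ) := by exact_mod_cast hfin
  linarith

end Pool.Agent.Helper88.Lang
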