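import Pool.Agent.Helper98.Lang.Defs

/-! # Packet P12: the moment bound -/

set_option autoImplicit false

open Finset Filter Topology

namespace Pool.Agent.Helper88.Lang

open Pool.Agent.Helper98.Lang

theorem V_one : V 1 = 1 := by
  unfold V
  have : pr 0 1 = ∅ := by
    unfold pr
    decide
  rw [this, prod_empty]

theorem V_two : V 2 = 3 / 2 := by
  unfold V
  have : pr 0 2 = {2} := by
    unfold pr
    decide
  rw [this, prod_singleton]
  norm_num

theorem V_succ (y : ℕ) : V y ≤ V (y + 1) ∧ V (y + 1) ≤ 3 / 2 * V y ∧ 0 < V y := by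
  have hpos : 0 < V y := prod_pos (fun p _ => by positivity)
  have hIoc : Ioc 0 (y + 1) = insert (y + 1) (Ioc 0 y) := by
    ext a
    simp only [mem_Ioc, mem_insert]
    omega
  by_cases hp : (y + 1).Prime
  · have h1 : pr 0 (y + 1) = insert (y + 1) (pr 0 y) := by
      unfold pr
      rw [hIoc, filter_insert, if_pos hp]
    have h2 : V (y + 1) = (1 + 1 / ((y + 1 : ℕ) : ℝ)) * V y := by
      unfold V
      rw [h1, prod_insert]
      unfold pr
      simp
    have h3 : (2 : ℝ) ≤ ((y + 1 : ℕ) : ℝ) := by exact_mod_cast hp.two_le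
    have h4 : 1 / ((y + 1 : ℕ) : ℝ) ≤ 1 / 2 := one_div_le_one_div_of_le (by norm_num) h3
    have h5 : 0 ≤ 1 / ((y + 1 : ℕ) : ℝ) := by positivity
    rw [h2]
    refine ⟨by nlinarith, by nlinarith, hpos⟩
  · have h1 : pr 0 (y + 1) = pr 0 y := by
      unfold pr
      rw [hIoc, filter_insert, if_neg hp]
    have h2 : V (y + 1) = V y := by
      unfold V
      rw [h1]
    rw [h2]
    exact ⟨le_rfl, by linarith, hpos⟩

theorem V_mono : Monotone V := monotone_nat_of_le_succ (fun y => (V_succ y).1)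

theorem V_ge_one {y : ℕ} (hy : 1 ≤ y) : 1 ≤ V y := by
  rw [← V_one]
  exact V_mono hy

theorem F_nonneg (q y : ℕ) : 0 ≤ F q y :=
  sum_nonneg (fun n _ => by positivity)

theorem young {x W th η : ℝ} (hx : 0 ≤ x) (hW : 0 ≤ W) (h0 : 0 ≤ th) (h1 : th < 1) (hη : 0 < η) :
    x ^ th * W ^ (1 - th) ≤ η * x + η ^ (-(th / (1 - th))) * W := by
  have h2 : 0 < 1 - th := by linarith
  have hA : 0 ≤ η ^ (-(th / (1 - th))) * W := mul_nonneg (Real.rpow_nonneg hη.le _) hW
  have hB : 0 ≤ η * x := by positivity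
  rcases le_total x (W * η ^ (-(1 / (1 - th)))) with h | h
  · have e1 : x ^ th ≤ (W * η ^ (-(1 / (1 - th)))) ^ th := Real.rpow_le_rpow hx h h0
    have e2 : (W * η ^ (-(1 / (1 - th)))) ^ th * W ^ (1 - th) = η ^ (-(th / (1 - th))) * W := by
      rw [Real.mul_rpow hW (Real.rpow_nonneg hη.le _), ← Real.rpow_mul hη.le]
      rcases hW.lt_or_eq with hW' | hW'
      · rw [mul_right_comm, ← Real.rpow_add hW']
        rw [show th + (1 - th) = 1 by ring, Real.rpow_one, mul_comm]
        congr 2
        ring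
      · rw [← hW', Real.zero_rpow h2.ne']
        ring
    have e3 : x ^ th * W ^ (1 - th) ≤ (W * η ^ (-(1 / (1 - th)))) ^ th * W ^ (1 - th) :=
      mul_le_mul_of_nonneg_right e1 (Real.rpow_nonneg hW _)
    linarith
  · have e0 : W ≤ x * η ^ (1 / (1 - th)) := by
      have := mul_le_mul_of_nonneg_right h (Real.rpow_nonneg hη.le (1 / (1 - th)))
      rw [mul_assoc, ← Real.rpow_add hη] at this
      rw [show -(1 / (1 - th)) + 1 / (1 - th) = 0 by ring, Real.rpow_zero, mul_one] at this
      exact this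
    have e1 : W ^ (1 - th) ≤ (x * η ^ (1 / (1 - th))) ^ (1 - th) := Real.rpow_le_rpow hW e0 h2.le
    have e2 : x ^ th * (x * η ^ (1 / (1 - th))) ^ (1 - th) = η * x := by
      rw [Real.mul_rpow hx (Real.rpow_nonneg hη.le _), ← Real.rpow_mul hη.le,
        one_div_mul_cancel h2.ne', Real.rpow_one]
      rcases hx.lt_or_eq with hx' | hx'
      · rw [← mul_assoc, ← Real.rpow_add hx']
        rw [show th + (1 - th) = 1 by ring, Real.rpow_one, mul_comm]
      · rw [← hx', Real.zero_rpow h2.ne']
        ring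
    have e3 : x ^ th * W ^ (1 - th) ≤ x ^ th * (x * η ^ (1 / (1 - th))) ^ (1 - th) :=
      mul_le_mul_of_nonneg_left e1 (Real.rpow_nonneg hx _)
    linarith

theorem mom : GBlock → GMer → GMom := by
  intro hB hMer q hq
  obtain ⟨_, _, _, _, _, _, hunb⟩ := hMer
  obtain ⟨C, hC, hblock⟩ := hB q 6 hq (by norm_num)
  have hqR : (2 : ℝ) ≤ q := by exact_mod_cast hq
  have hq0 : (0 : ℝ) < q := by linarith
  have hq1 : (0 : ℝ) < (q : ℝ) - 1 := by linarith
  -- the constant eta
  set z : ℝ := (2 : ℝ) ^ (-(1 / (q : ℝ))) with hz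
  have hz0 : 0 < z := Real.rpow_pos_of_pos (by norm_num) _
  have hz1 : z < 1 := Real.rpow_lt_one_of_one_lt_of_neg (by norm_num) (by
    have : 0 < 1 / (q : ℝ) := by positivity
    linarith)
  set η : ℝ := 1 - z with hη
  have hη0 : 0 < η := by linarith
  set th : ℝ := ((q : ℝ) - 2) / (q - 1) with hth
  have hth0 : 0 ≤ th := div_nonneg (by linarith) hq1.le
  have hth1 : th < 1 := by
    rw [hth, div_lt_one hq1]
    linarith
  have hth2 : 1 - th = 1 / ((q : ℝ) - 1) := by
    rw [hth]
    field_simp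
    ring
  set C' : ℝ := z⁻¹ * (η ^ (-(th / (1 - th))) * C ^ ((q : ℝ) - 1)) with hC'
  have hC'0 : 0 < C' := by
    have := Real.rpow_pos_of_pos hη0 (-(th / (1 - th)))
    have := Real.rpow_pos_of_pos hC ((q : ℝ) - 1)
    positivity
  -- step
  have hstep : ∀ a b : ℕ, 2 ≤ a → a ≤ b → V b ≤ 6 * V a →
      F q b ≤ z⁻¹ * ((V b / V a) ^ (1 + 1 / (q : ℝ)) * F q a) + C' * V b ^ (1 + 1 / (q : ℝ)) := by
    intro a b ha hab hV
    have h1 := hblock a b ha hab hV
    have hVb : 0 < V b := (V_succ b).2.2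
    have hF := F_nonneg q b
    have hW0 : 0 ≤ C ^ ((q : ℝ) - 1) * V b ^ (1 + 1 / (q : ℝ)) := by
      have := Real.rpow_nonneg hC.le ((q : ℝ) - 1)
      have := Real.rpow_nonneg hVb.le (1 + 1 / (q : ℝ))
      positivity
    have h2 := young hF hW0 hth0 hth1 hη0
    have h3 : (C ^ ((q : ℝ) - 1) * V b ^ (1 + 1 / (q : ℝ))) ^ (1 - th) =
        C * V b ^ (2 / ((q : ℝ) - 1) - 1 / q) := by
      rw [Real.mul_rpow (Real.rpow_nonneg hC.le _) (Real.rpow_nonneg hVb.le _),
        ← Real.rpow_mul hC.le, ← Real.rpow_mul hVb.le, hth2, mul_one_div_cancel hq1.ne',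
        Real.rpow_one]
      congr 2
      field_simp
      ring
    rw [h3] at h2
    have h4 : C * V b ^ (2 / ((q : ℝ) - 1) - 1 / q) * F q b ^ (((q : ℝ) - 2) / (q - 1)) ≤
        η * F q b + η ^ (-(th / (1 - th))) * (C ^ ((q : ℝ) - 1) * V b ^ (1 + 1 / (q : ℝ))) := by
      calc C * V b ^ (2 / ((q : ℝ) - 1) - 1 / q) * F q b ^ (((q : ℝ) - 2) / (q - 1)) =
            F q b ^ th * (C * V b ^ (2 / ((q : ℝ) - 1) - 1 / q)) := by ring
        _ ≤ _ := h2
    have h5 : z * F q b ≤ (V b / V a) ^ (1 + 1 / (q : ℝ)) * F q a +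
        η ^ (-(th / (1 - th))) * (C ^ ((q : ℝ) - 1) * V b ^ (1 + 1 / (q : ℝ))) := by
      have : z * F q b = F q b - η * F q b := by
        rw [hη]
        ring
      linarith
    have h6 : F q b = z⁻¹ * (z * F q b) := by
      rw [← mul_assoc, inv_mul_cancel₀ hz0.ne', one_mul]
    calc F q b = z⁻¹ * (z * F q b) := h6
      _ ≤ z⁻¹ * ((V b / V a) ^ (1 + 1 / (q : ℝ)) * F q a +
        η ^ (-(th / (1 - th))) * (C ^ ((q : ℝ) - 1) * V b ^ (1 + 1 / (q : ℝ)))) :=
          mul_le_mul_of_nonneg_left h5 (by positivity)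
      _ = _ := by
          rw [hC']
          ring
  obtain ⟨y0, hy0⟩ := hunb 6
  set K : ℝ := C' / η + ∑ y ∈ range y0, F q y + 1 with hK
  have hS0 : 0 ≤ ∑ y ∈ range y0, F q y := sum_nonneg (fun y _ => F_nonneg q y)
  have hK0 : 0 < K := by
    have : 0 < C' / η := by positivity
    linarith
  have hKC : C' ≤ η * K := by
    have h1 : C' / η ≤ K := by linarith
    have h2 := mul_le_mul_of_nonneg_left h1 hη0.le
    have h3 : η * (C' / η) = C' := by field_simp
    linarith
  refine ⟨K, hK0, ?_⟩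
  intro y
  induction y using Nat.strong_induction_on with
  | _ y ih =>
    intro hy
    have hVy1 : 1 ≤ V y := V_ge_one hy
    have hVy0 : 0 < V y := by linarith
    have hpow1 : 1 ≤ V y ^ (1 + 2 / (q : ℝ)) := Real.one_le_rpow hVy1 (by positivity)
    by_cases hV6 : 6 ≤ V y
    · set a := Nat.findGreatest (fun a => V a ≤ V y / 4) y with ha
      have hy2 : 2 ≤ y := by
        by_contra hcon
        have : y = 1 := by omega
        rw [this, V_one] at hV6
        norm_num at hV6
      have hP2 : V 2 ≤ V y / 4 := by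
        rw [V_two]
        linarith
      have ha2 : 2 ≤ a := Nat.le_findGreatest hy2 hP2
      have haP : V a ≤ V y / 4 :=
        Nat.findGreatest_spec (P := fun a => V a ≤ V y / 4) hy2 hP2
      have hay : a ≤ y := Nat.findGreatest_le y
      have hay' : a < y := by
        rcases hay.lt_or_eq with h | h
        · exact h
        · exfalso
          rw [h] at haP
          linarith
      have hsucc : V y / 4 < V (a + 1) := by
        by_contra hcon
        push Not at hcon
        have := Nat.le_findGreatest (P := fun a => V a ≤ V y / 4) (show a + 1 ≤ y by omega) hcon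
        omega
      have hVa0 : 0 < V a := (V_succ a).2.2
      have hVa : V y ≤ 6 * V a := by
        have := (V_succ a).2.1
        linarith
      have h1 := hstep a y ha2 hay hVa
      have h2 := ih a hay' (by omega)
      have hR4 : 4 ≤ V y / V a := by
        rw [le_div_iff₀ hVa0]
        linarith
      have hR0 : 0 < V y / V a := by linarith
      have h3 : (V y / V a) ^ (1 + 1 / (q : ℝ)) * F q a ≤ z ^ 2 * K * V y ^ (1 + 2 / (q : ℝ)) := by
        have e1 : V a = V y / (V y / V a) := by field_simp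
        have e2 : V a ^ (1 + 2 / (q : ℝ)) = V y ^ (1 + 2 / (q : ℝ)) /
            (V y / V a) ^ (1 + 2 / (q : ℝ)) := by
          rw [← Real.div_rpow hVy0.le hR0.le, ← e1]
        have e3 : (V y / V a) ^ (1 + 1 / (q : ℝ)) / (V y / V a) ^ (1 + 2 / (q : ℝ)) =
            (V y / V a) ^ (-(1 / (q : ℝ))) := by
          rw [← Real.rpow_sub hR0]
          congr 1
          ring
        have e4 : (V y / V a) ^ (-(1 / (q : ℝ))) ≤ z ^ 2 := by
          have e5 : (V y / V a) ^ (-(1 / (q : ℝ))) ≤ (4 : ℝ) ^ (-(1 / (q : ℝ))) :=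
            Real.rpow_le_rpow_of_nonpos (by norm_num) hR4 (by
              have : 0 < 1 / (q : ℝ) := by positivity
              linarith)
          have e6 : (4 : ℝ) ^ (-(1 / (q : ℝ))) = z ^ 2 := by
            rw [hz, ← Real.rpow_natCast, ← Real.rpow_mul (by norm_num)]
            rw [show (4 : ℝ) = (2 : ℝ) ^ (2 : ℝ) by norm_num, ← Real.rpow_mul (by norm_num)]
            congr 1
            push_cast
            ring
          linarith
        have hRp : 0 ≤ (V y / V a) ^ (1 + 1 / (q : ℝ)) := Real.rpow_nonneg hR0.le _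
        have hVp : 0 ≤ V y ^ (1 + 2 / (q : ℝ)) := by linarith
        calc (V y / V a) ^ (1 + 1 / (q : ℝ)) * F q a ≤
              (V y / V a) ^ (1 + 1 / (q : ℝ)) * (K * V a ^ (1 + 2 / (q : ℝ))) :=
              mul_le_mul_of_nonneg_left h2 hRp
          _ = ((V y / V a) ^ (1 + 1 / (q : ℝ)) / (V y / V a) ^ (1 + 2 / (q : ℝ))) * K *
              V y ^ (1 + 2 / (q : ℝ)) := by
              rw [e2]
              ring
          _ ≤ z ^ 2 * K * V y ^ (1 + 2 / (q : ℝ)) := by
              rw [e3]
              apply mul_le_mul_of_nonneg_right _ hVp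
              exact mul_le_mul_of_nonneg_right e4 hK0.le
      have h4 : V y ^ (1 + 1 / (q : ℝ)) ≤ V y ^ (1 + 2 / (q : ℝ)) := by
        apply Real.rpow_le_rpow_of_exponent_le hVy1
        have : 1 / (q : ℝ) ≤ 2 / (q : ℝ) := by
          apply div_le_div_of_nonneg_right (by norm_num) hq0.le
        linarith
      calc F q y ≤ z⁻¹ * ((V y / V a) ^ (1 + 1 / (q : ℝ)) * F q a) +
            C' * V y ^ (1 + 1 / (q : ℝ)) := h1
        _ ≤ z⁻¹ * (z ^ 2 * K * V y ^ (1 + 2 / (q : ℝ))) + C' * V y ^ (1 + 2 / (q : ℝ)) :=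
            add_le_add (mul_le_mul_of_nonneg_left h3 (by positivity))
              (mul_le_mul_of_nonneg_left h4 hC'0.le)
        _ = (z * K + C') * V y ^ (1 + 2 / (q : ℝ)) := by
            have : z⁻¹ * z ^ 2 = z := by
              rw [pow_two, ← mul_assoc, inv_mul_cancel₀ hz0.ne', one_mul]
            calc z⁻¹ * (z ^ 2 * K * V y ^ (1 + 2 / (q : ℝ))) + C' * V y ^ (1 + 2 / (q : ℝ)) =
                  ((z⁻¹ * z ^ 2) * K + C') * V y ^ (1 + 2 / (q : ℝ)) := by ring
              _ = _ := by rw [this]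
        _ ≤ K * V y ^ (1 + 2 / (q : ℝ)) := by
            apply mul_le_mul_of_nonneg_right _ (by linarith)
            have : η * K = K - z * K := by
              rw [hη]
              ring
            linarith
    · push Not at hV6
      have hyy : y < y0 := by
        by_contra hcon
        push Not at hcon
        have := V_mono hcon
        linarith
      have h1 : F q y ≤ ∑ y ∈ range y0, F q y :=
        single_le_sum (f := fun y => F q y) (fun y _ => F_nonneg q y) (mem_range.2 hyy)
      have h2 : 0 < C' / η := by positivity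
      calc F q y ≤ K := by linarith
        _ = K * 1 := (mul_one K).symm
        _ ≤ K * V y ^ (1 + 2 / (q : ℝ)) := mul_le_mul_of_nonneg_left hpow1 hK0.le

end Pool.Agent.Helper88.Lang
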