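import Pool.Agent.Helper98.Lang.Defs
import Pool.Agent.Helper92.Field.Divisor

/-! # Packet P15: small primes -/

set_option autoImplicit false

open Finset Filter Topology

namespace Pool.Agent.Helper88.Lang

open Pool.Agent.Helper98.Lang

theorem sum_biUnion_le_aux {ι : Type*} [DecidableEq ι] (BB : Finset ι) (t : ι → Finset ℕ)
    (f : ℕ → ℝ) (hf : ∀ n, 0 ≤ f n) :
    ∑ n ∈ BB.biUnion t, f n ≤ ∑ b ∈ BB, ∑ n ∈ t b, f n := by
  induction BB using Finset.induction_on with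
  | empty => simp
  | insert a s ha ih =>
    rw [Finset.biUnion_insert, Finset.sum_insert ha]
    have h := Finset.sum_union_inter (s₁ := t a) (s₂ := s.biUnion t) (f := f)
    have h2 : 0 ≤ ∑ n ∈ t a ∩ s.biUnion t, f n := Finset.sum_nonneg (fun n _ => hf n)
    linarith

theorem sm : GDDM → GSm := by
  rintro ⟨_, _, hDD⟩ A y0
  classical
  have hA0 : (0 : ℝ) < 8 * ((A : ℝ) + 1) := by positivity
  obtain ⟨C1, hC1, hdiv⟩ := Pool.Agent.Helper92.Field.divisor_bound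
    (ε := 1 / (8 * ((A : ℝ) + 1))) (by positivity)
  set K : ℝ := 2 ^ (y0 + 1).primesBelow.card with hK
  have hK0 : 0 < K := by positivity
  refine ⟨K * C1 * (y0 + 1), by positivity, ?_⟩
  intro z X g Y E hz hX hLev
  obtain ⟨hg, hY, hE, hlev⟩ := hLev
  have hzR : (1 : ℝ) ≤ z := by exact_mod_cast hz
  have hz0 : (0 : ℝ) < z := by linarith
  -- the bound for DD
  have hDDn : ∀ n ∈ Icc 1 X, (DD n : ℝ) ≤ C1 * (z : ℝ) ^ ((1 : ℝ) / 8) := by
    intro n hn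
    rw [mem_Icc] at hn
    have h1 : (DD n : ℝ) ≤ (n.divisors.card : ℝ) := by exact_mod_cast hDD n
    have h2 := hdiv n (by omega)
    have h3 : (n : ℝ) ≤ (z : ℝ) ^ (A : ℝ) := by
      rw [Real.rpow_natCast]
      have : n ≤ z ^ A := hn.2.trans hX
      exact_mod_cast this
    have h4 : (n : ℝ) ^ (1 / (8 * ((A : ℝ) + 1))) ≤ (z : ℝ) ^ ((1 : ℝ) / 8) := by
      calc (n : ℝ) ^ (1 / (8 * ((A : ℝ) + 1))) ≤ ((z : ℝ) ^ (A : ℝ)) ^ (1 / (8 * ((A : ℝ) + 1))) :=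
            Real.rpow_le_rpow (Nat.cast_nonneg _) h3 (by positivity)
        _ = (z : ℝ) ^ ((A : ℝ) * (1 / (8 * ((A : ℝ) + 1)))) := (Real.rpow_mul hz0.le _ _).symm
        _ ≤ (z : ℝ) ^ ((1 : ℝ) / 8) := by
            apply Real.rpow_le_rpow_of_exponent_le hzR
            rw [mul_one_div, div_le_div_iff₀ hA0 (by norm_num)]
            linarith
    calc (DD n : ℝ) ≤ C1 * (n : ℝ) ^ (1 / (8 * ((A : ℝ) + 1))) := h1.trans h2
      _ ≤ C1 * (z : ℝ) ^ ((1 : ℝ) / 8) := mul_le_mul_of_nonneg_left h4 hC1.le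
  -- the admissible b
  set BB := (Nat.smoothNumbersUpTo z (y0 + 1)).filter (fun b => z < b * y0) with hBB
  have hcardB : (BB.card : ℝ) ≤ K * (z : ℝ) ^ ((1 : ℝ) / 2) := by
    have h1 : BB.card ≤ 2 ^ (y0 + 1).primesBelow.card * z.sqrt :=
      (card_filter_le _ _).trans (Nat.smoothNumbersUpTo_card_le z (y0 + 1))
    have h2 : (BB.card : ℝ) ≤ 2 ^ (y0 + 1).primesBelow.card * (z.sqrt : ℝ) := by exact_mod_cast h1
    have h3 : (z.sqrt : ℝ) ≤ (z : ℝ) ^ ((1 : ℝ) / 2) := by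
      rw [← Real.sqrt_eq_rpow]
      exact Real.nat_sqrt_le_real_sqrt
    calc (BB.card : ℝ) ≤ K * (z.sqrt : ℝ) := h2
      _ ≤ K * (z : ℝ) ^ ((1 : ℝ) / 2) := mul_le_mul_of_nonneg_left h3 hK0.le
  have hsub : (Icc 1 X).filter (fun n => ∃ b r : ℕ, n = b * r ∧ b ≤ z ∧ Smooth y0 b ∧ z < b * y0) ⊆
      BB.biUnion (fun b => (Icc 1 X).filter (fun n => b ∣ n)) := by
    intro n hn
    rw [mem_filter] at hn
    obtain ⟨hn1, b, r, hbr, hb1, hb2, hb3⟩ := hn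
    rw [mem_biUnion]
    refine ⟨b, ?_, mem_filter.2 ⟨hn1, ⟨r, hbr⟩⟩⟩
    rw [hBB, mem_filter, Nat.mem_smoothNumbersUpTo]
    refine ⟨⟨hb1, ?_⟩, hb3⟩
    rw [Nat.mem_smoothNumbers']
    intro p hp hpb
    have := hb2 p hp hpb
    omega
  have hsum : ∑ n ∈ (Icc 1 X).filter (fun n => ∃ b r : ℕ, n = b * r ∧ b ≤ z ∧ Smooth y0 b ∧
        z < b * y0), g n * DD n ≤
      ∑ b ∈ BB, ∑ n ∈ (Icc 1 X).filter (fun n => b ∣ n), g n * DD n := by
    refine (sum_le_sum_of_subset_of_nonneg hsub (fun n _ _ => ?_)).trans ?_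
    · exact mul_nonneg (hg n) (Nat.cast_nonneg _)
    · exact sum_biUnion_le_aux BB _ _ (fun n => mul_nonneg (hg n) (Nat.cast_nonneg _))
  have hin : ∀ b ∈ BB, ∑ n ∈ (Icc 1 X).filter (fun n => b ∣ n), g n * DD n ≤
      C1 * (z : ℝ) ^ ((1 : ℝ) / 8) * (Y * y0 / z + E) := by
    intro b hb
    rw [hBB, mem_filter, Nat.mem_smoothNumbersUpTo] at hb
    obtain ⟨⟨hb1, _⟩, hb3⟩ := hb
    have hb0 : 1 ≤ b := by
      rcases Nat.eq_zero_or_pos b with h | h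
      · rw [h] at hb3
        omega
      · exact h
    have h1 := (abs_le.1 (hlev b hb0 (hb1.trans (Nat.le_self_pow (by norm_num) z)))).2
    have hbR : (0 : ℝ) < b := by exact_mod_cast hb0
    have h2 : Y / b ≤ Y * y0 / z := by
      rw [div_le_div_iff₀ hbR hz0]
      have h3 : (z : ℝ) ≤ b * y0 := by exact_mod_cast hb3.le
      nlinarith
    calc ∑ n ∈ (Icc 1 X).filter (fun n => b ∣ n), g n * DD n ≤
          ∑ n ∈ (Icc 1 X).filter (fun n => b ∣ n), g n * (C1 * (z : ℝ) ^ ((1 : ℝ) / 8)) :=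
          sum_le_sum (fun n hn => mul_le_mul_of_nonneg_left (hDDn n (mem_filter.1 hn).1) (hg n))
      _ = C1 * (z : ℝ) ^ ((1 : ℝ) / 8) * ∑ n ∈ (Icc 1 X).filter (fun n => b ∣ n), g n := by
          rw [← sum_mul, mul_comm]
      _ ≤ C1 * (z : ℝ) ^ ((1 : ℝ) / 8) * (Y * y0 / z + E) := by
          apply mul_le_mul_of_nonneg_left _ (by positivity)
          linarith
  have htot : ∑ b ∈ BB, ∑ n ∈ (Icc 1 X).filter (fun n => b ∣ n), g n * DD n ≤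
      (K * (z : ℝ) ^ ((1 : ℝ) / 2)) * (C1 * (z : ℝ) ^ ((1 : ℝ) / 8) * (Y * y0 / z + E)) := by
    refine (sum_le_card_nsmul _ _ _ hin).trans ?_
    rw [nsmul_eq_mul]
    exact mul_le_mul_of_nonneg_right hcardB (by positivity)
  have e1 : (z : ℝ) ^ ((1 : ℝ) / 2) * (z : ℝ) ^ ((1 : ℝ) / 8) = (z : ℝ) ^ ((5 : ℝ) / 8) := by
    rw [← Real.rpow_add hz0]
    norm_num
  have e2 : (z : ℝ) ^ ((5 : ℝ) / 8) ≤ z := by
    calc (z : ℝ) ^ ((5 : ℝ) / 8) ≤ (z : ℝ) ^ (1 : ℝ) :=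
          Real.rpow_le_rpow_of_exponent_le hzR (by norm_num)
      _ = z := Real.rpow_one _
  have e3 : (z : ℝ) ^ ((5 : ℝ) / 8) / z ≤ (z : ℝ) ^ (-(1 : ℝ) / 4) := by
    have h1 : (z : ℝ) ^ ((5 : ℝ) / 8) / z = (z : ℝ) ^ ((5 : ℝ) / 8 - 1) := by
      rw [Real.rpow_sub hz0, Real.rpow_one]
    rw [h1]
    exact Real.rpow_le_rpow_of_exponent_le hzR (by norm_num)
  refine (hsum.trans htot).trans ?_
  calc (K * (z : ℝ) ^ ((1 : ℝ) / 2)) * (C1 * (z : ℝ) ^ ((1 : ℝ) / 8) * (Y * y0 / z + E))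
      = K * C1 * ((z : ℝ) ^ ((1 : ℝ) / 2) * (z : ℝ) ^ ((1 : ℝ) / 8)) * (Y * y0 / z + E) := by ring
    _ = K * C1 * y0 * Y * ((z : ℝ) ^ ((5 : ℝ) / 8) / z) + K * C1 * E * (z : ℝ) ^ ((5 : ℝ) / 8) := by
        rw [e1]
        ring
    _ ≤ K * C1 * y0 * Y * (z : ℝ) ^ (-(1 : ℝ) / 4) + K * C1 * E * z := by
        apply add_le_add
        · exact mul_le_mul_of_nonneg_left e3 (by positivity)
        · exact mul_le_mul_of_nonneg_left e2 (by positivity)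
    _ ≤ K * C1 * (y0 + 1) * Y * (z : ℝ) ^ (-(1 : ℝ) / 4) + K * C1 * (y0 + 1) * E * z := by
        have h1 : 0 ≤ K * C1 * Y * (z : ℝ) ^ (-(1 : ℝ) / 4) := by positivity
        have h2 : 0 ≤ K * C1 * y0 * E * z := by positivity
        nlinarith

end Pool.Agent.Helper88.Lang
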